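import Pool.Agent.Y890.UC.Poly
import Pool.Agent.Y120.RealPolys
import Pool.Agent.TH659.AQ.Equal

/-!
# Integer polynomials in arbitrary constants and in values of analytic functions at rational points
-/

set_option autoImplicit false
set_option linter.unusedSectionVars false

open Set Filter Topology Finset

namespace Pool.Agent.Y549.PE

open Pool.Agent.TH818.AR Pool.Agent.TH818.AP Pool.Agent.Y120 Pool.Agent.Y890.UC

variable {κ G : Type} [Fintype κ] [DecidableEq κ] [Fintype G] [DecidableEq G] {n D : ℕ}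

/-- exponent vectors -/
noncomputable def ex (v : G → Fin (D + 1)) (e : Fin n → κ → Fin (D + 1)) : (G ⊕ (Fin n × κ)) →₀ ℕ :=
  TH659.AQ.fs (Sum.elim v fun x => e x.1 x.2)

/-- the coefficients, polynomials in the constants -/
noncomputable def cf (ξ : G → ℂ) (P : MvPolynomial (G ⊕ (Fin n × κ)) ℤ) (e : Fin n → κ → Fin (D + 1)) : ℂ :=
  ∑ v : G → Fin (D + 1), (∏ i, ξ i ^ (v i : ℕ)) * ((P.coeff (ex v e) : ℤ) : ℂ)

/-- splitting exponents -/
def spl : (G ⊕ (Fin n × κ) → Fin (D + 1)) ≃ (G → Fin (D + 1)) × (Fin n → κ → Fin (D + 1)) :=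
  (Equiv.sumArrowEquivProdArrow G (Fin n × κ) (Fin (D + 1))).trans
    (Equiv.prodCongr (Equiv.refl _) (Equiv.curry (Fin n) κ (Fin (D + 1))))

theorem aeval_cf (ξ : G → ℂ) (y : Fin n × κ → ℂ) (P : MvPolynomial (G ⊕ (Fin n × κ)) ℤ)
    (hP : ∀ i, P.degreeOf i ≤ D) : MvPolynomial.aeval (Sum.elim ξ y) P =
      ∑ e : Fin n → κ → Fin (D + 1), cf ξ P e * ∏ j, ∏ i, y (j, i) ^ (e j i : ℕ) := by
  classical
  rw [TH659.AQ.aeval_box _ P hP, ← Equiv.sum_comp (spl (G := G) (κ := κ) (n := n) (D := D)).symm,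
    Fintype.sum_prod_type, Finset.sum_comm]
  refine Finset.sum_congr rfl fun e _ => ?_
  rw [cf, Finset.sum_mul]
  refine Finset.sum_congr rfl fun v _ => ?_
  have h1 : (spl (G := G) (κ := κ) (n := n) (D := D)).symm (v, e) = Sum.elim v fun x => e x.1 x.2 := by
    funext z
    rcases z with z | z <;> rfl
  rw [h1, Fintype.prod_sum_type, Fintype.prod_prod_type, ex]
  simp only [Sum.elim_inl, Sum.elim_inr]
  ring

theorem core (hn : 1 ≤ n) (u : κ → ℝ → ℝ) (a b : ℝ) (hab : a < b)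
    (han : ∀ i, AnalyticOnNhd ℝ (u i) (Icc a b)) (hf : AInd u a b) (A ε : ℝ) (hε : 0 < ε) :
    ∃ B C : ℝ, 0 ≤ B ∧ 0 < C ∧ ∀ T : ℝ, 1 ≤ T → ∀ ξ : G → ℂ, ∃ S : Finset (Fin n → ℚ),
      (S.card : ℝ) ≤ C * T ^ (2 * ((n : ℝ) - 1) + ε) ∧ ∀ q : Fin n → ℚ,
      (∀ l, a ≤ q l ∧ q l ≤ b ∧ ((q l).den : ℝ) ≤ T) → q ∉ S → ∀ P : MvPolynomial (G ⊕ (Fin n × κ)) ℤ,
        (∀ z, P.degreeOf z ≤ D) → (∀ s, |((P.coeff s : ℤ) : ℝ)| ≤ T ^ A) →
        ∀ e : Fin n → κ → Fin (D + 1),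
        ‖MvPolynomial.aeval (Sum.elim ξ fun x : Fin n × κ => ((u x.2 (q x.1) : ℝ) : ℂ)) P‖ ≤ T ^ (-B) * ‖cf ξ P e‖ →
          cf ξ P e = 0 := by
  classical
  obtain ⟨B, C, T2, hB, hC, hT2, hu⟩ := multi_arb n (fun _ => fun T => RT a b T)
    (fun _ => fun (q : ℚ) i => ((u i q : ℝ) : ℂ)) (fun _ => oneVar_rat u a b hab han hf) (G → Fin (D + 1)) D A ε hε
  obtain ⟨K, hK, hKc⟩ := card_RT_gen a b
  have hn1 : (1 : ℝ) ≤ n := by exact_mod_cast hn
  refine ⟨B, C * (n * K ^ (n - 1)) + (K * T2 ^ (2 : ℝ)) ^ n, hB, by positivity, fun T hT ξ => ?_⟩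
  have hTp : 0 < T := by linarith
  have hone : 1 ≤ T ^ (2 * ((n : ℝ) - 1) + ε) := Real.one_le_rpow hT (by nlinarith)
  have hpc : ((Fintype.piFinset fun _ : Fin n => RT a b T).card : ℝ) = ((RT a b T).card : ℝ) ^ n := by
    rw [Fintype.card_piFinset, Finset.prod_const, Finset.card_univ, Fintype.card_fin]
    push_cast
    rfl
  rcases le_or_gt T2 T with hT2T | hT2T
  · refine ⟨(Fintype.piFinset fun _ : Fin n => RT a b T).filter fun q =>
      RelA (fun v : G → Fin (D + 1) => ∏ i, ξ i ^ (v i : ℕ)) (fun e : Fin n → κ → Fin (D + 1) =>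
        mg (fun _ => fun (q : ℚ) i => ((u i q : ℝ) : ℂ)) q e) (T ^ A) (T ^ (-B)), ?_, ?_⟩
    · have h1 := hu T hT2T (fun v : G → Fin (D + 1) => ∏ i, ξ i ^ (v i : ℕ)) _
        (Finset.filter_subset (fun q => RelA (fun v : G → Fin (D + 1) => ∏ i, ξ i ^ (v i : ℕ))
          (fun e : Fin n → κ → Fin (D + 1) =>
            mg (fun _ => fun (q : ℚ) i => ((u i q : ℝ) : ℂ)) q e) (T ^ A) (T ^ (-B)))
          (Fintype.piFinset fun _ : Fin n => RT a b T)) (fun x hx => (Finset.mem_filter.1 hx).2)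
      refine h1.trans ?_
      rw [Mg_const]
      have h2 : ((RT a b T).card : ℝ) ^ (n - 1) ≤ K ^ (n - 1) * T ^ (2 * ((n : ℝ) - 1)) := by
        calc ((RT a b T).card : ℝ) ^ (n - 1) ≤ (K * T ^ (2 : ℝ)) ^ (n - 1) :=
              pow_le_pow_left₀ (by positivity) (hKc T hT) _
          _ = K ^ (n - 1) * T ^ (2 * ((n : ℝ) - 1)) := by
              rw [mul_pow, ← Real.rpow_natCast (T ^ (2 : ℝ)), ← Real.rpow_mul hTp.le, Nat.cast_sub hn, Nat.cast_one]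
      calc C * T ^ ε * (n * ((RT a b T).card : ℝ) ^ (n - 1)) ≤
          C * T ^ ε * (n * (K ^ (n - 1) * T ^ (2 * ((n : ℝ) - 1)))) := by gcongr
        _ = C * (n * K ^ (n - 1)) * T ^ (2 * ((n : ℝ) - 1) + ε) := by
            rw [Real.rpow_add hTp]; ring
        _ ≤ _ := by
            have : 0 ≤ (K * T2 ^ (2 : ℝ)) ^ n := by positivity
            nlinarith
    · intro q hq hqS P hPd hPc e hs
      by_contra hne
      apply hqS
      rw [Finset.mem_filter, Fintype.mem_piFinset]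
      refine ⟨fun l => mem_RT.2 ⟨⟨(hq l).1, (hq l).2.1⟩, (hq l).2.2⟩, fun e v => P.coeff (ex v e),
        fun e v => hPc _, e, hne, ?_⟩
      refine le_trans (le_of_eq ?_) hs
      rw [aeval_cf ξ _ P hPd]
      rfl
  · refine ⟨Fintype.piFinset fun _ : Fin n => RT a b T, ?_, ?_⟩
    · rw [hpc]
      have h1 : ((RT a b T).card : ℝ) ^ n ≤ (K * T2 ^ (2 : ℝ)) ^ n := by
        refine pow_le_pow_left₀ (by positivity) ((hKc T hT).trans ?_) _
        exact mul_le_mul_of_nonneg_left (Real.rpow_le_rpow hTp.le hT2T.le (by norm_num)) hK.le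
      have h2 : 0 ≤ C * (n * K ^ (n - 1)) := by positivity
      have h3 : 0 ≤ (K * T2 ^ (2 : ℝ)) ^ n := by positivity
      nlinarith
    · intro q hq hqS
      exact absurd (Fintype.mem_piFinset.2 fun l => mem_RT.2 ⟨⟨(hq l).1, (hq l).2.1⟩, (hq l).2.2⟩) hqS

/-! ### the coefficients as polynomials in the constants -/

/-- the coefficients, polynomials in the constants -/
noncomputable def Qe (P : MvPolynomial (G ⊕ (Fin n × κ)) ℤ) (e : Fin n → κ → Fin (D + 1)) : MvPolynomial G ℤ :=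
  ∑ v : G → Fin (D + 1), MvPolynomial.monomial (TH659.AQ.fs v) (P.coeff (ex v e))

theorem aeval_Qe {R : Type} [CommRing R] (ξ : G → R) (P : MvPolynomial (G ⊕ (Fin n × κ)) ℤ)
    (e : Fin n → κ → Fin (D + 1)) : MvPolynomial.aeval ξ (Qe P e) =
      ∑ v : G → Fin (D + 1), (∏ i, ξ i ^ (v i : ℕ)) * ((P.coeff (ex v e) : ℤ) : R) := by
  rw [Qe, map_sum]
  refine Finset.sum_congr rfl fun v _ => ?_
  rw [MvPolynomial.aeval_monomial, mul_comm]
  congr 1
  rw [Finsupp.prod_fintype _ _ (fun i => pow_zero _)]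
  rfl

theorem cf_eq (ξ : G → ℂ) (P : MvPolynomial (G ⊕ (Fin n × κ)) ℤ)
    (e : Fin n → κ → Fin (D + 1)) : MvPolynomial.aeval ξ (Qe P e) = cf ξ P e := aeval_Qe ξ P e

theorem aeval_R {R : Type} [CommRing R] (y : G ⊕ (Fin n × κ) → R) (P : MvPolynomial (G ⊕ (Fin n × κ)) ℤ)
    (hP : ∀ i, P.degreeOf i ≤ D) : MvPolynomial.aeval y P =
      ∑ e : Fin n → κ → Fin (D + 1), MvPolynomial.aeval (fun i => y (Sum.inl i)) (Qe P e) *
        ∏ j, ∏ i, y (Sum.inr (j, i)) ^ (e j i : ℕ) := by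
  classical
  rw [TH659.AQ.aeval_box _ P hP, ← Equiv.sum_comp (spl (G := G) (κ := κ) (n := n) (D := D)).symm,
    Fintype.sum_prod_type, Finset.sum_comm]
  refine Finset.sum_congr rfl fun e _ => ?_
  rw [aeval_Qe, Finset.sum_mul]
  refine Finset.sum_congr rfl fun v _ => ?_
  have h1 : (spl (G := G) (κ := κ) (n := n) (D := D)).symm (v, e) = Sum.elim v fun x => e x.1 x.2 := by
    funext z
    rcases z with z | z <;> rfl
  rw [h1, Fintype.prod_sum_type, Fintype.prod_prod_type, ex]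
  simp only [Sum.elim_inl, Sum.elim_inr]
  ring

theorem Qe_deg (P : MvPolynomial (G ⊕ (Fin n × κ)) ℤ) (e : Fin n → κ → Fin (D + 1)) (i : G) :
    (Qe P e).degreeOf i ≤ D := by
  classical
  unfold Qe
  refine (MvPolynomial.degreeOf_sum_le i _ _).trans (Finset.sup_le fun v _ => ?_)
  rw [MvPolynomial.degreeOf_eq_sup]
  refine Finset.sup_le fun m hm => ?_
  have h1 := MvPolynomial.support_monomial_subset hm
  rw [Finset.mem_singleton] at h1
  rw [h1]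
  exact Nat.lt_succ_iff.1 (v i).2

theorem Qe_coeff (P : MvPolynomial (G ⊕ (Fin n × κ)) ℤ) (e : Fin n → κ → Fin (D + 1)) {M : ℝ} (hM : 0 ≤ M)
    (hP : ∀ s, |((P.coeff s : ℤ) : ℝ)| ≤ M) (s : G →₀ ℕ) : |(((Qe P e).coeff s : ℤ) : ℝ)| ≤ M := by
  classical
  unfold Qe
  rw [MvPolynomial.coeff_sum]
  simp only [MvPolynomial.coeff_monomial]
  by_cases h : ∃ v : G → Fin (D + 1), TH659.AQ.fs v = s
  · obtain ⟨v, hv⟩ := h
    rw [Finset.sum_eq_single v]
    · rw [if_pos hv]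
      exact hP _
    · intro v' _ hne
      rw [if_neg]
      intro h'
      exact hne (TH659.AQ.fs_inj (h'.trans hv.symm))
    · intro h'
      exact absurd (Finset.mem_univ _) h'
  · rw [Finset.sum_eq_zero]
    · simpa using hM
    · intro v _
      rw [if_neg]
      intro h'
      exact h ⟨v, h'⟩

/-- The gap theorem. -/
theorem gapC {σ : Type} [Fintype σ] [DecidableEq σ] (d : ℕ) (hn : 1 ≤ n) (u : κ → ℝ → ℝ)
    (a b : ℝ) (hab : a < b) (han : ∀ k, AnalyticOnNhd ℝ (u k) (Set.Icc a b)) (hf : AInd u a b)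
    (num den : σ → MvPolynomial (G ⊕ (Fin n × κ)) ℤ) (X : Set (G → ℂ)) (x : (G → ℂ) → (Fin n → ℚ) → σ → ℂ) (N0 : ℝ)
    (hx : ∀ ξ ∈ X, ∀ q : Fin n → ℚ, (∀ l, a ≤ q l ∧ q l ≤ b) → (∀ i, MvPolynomial.aeval
        (Sum.elim ξ fun x : Fin n × κ => ((u x.2 (q x.1) : ℝ) : ℂ)) (num i) =
      MvPolynomial.aeval (Sum.elim ξ fun x : Fin n × κ => ((u x.2 (q x.1) : ℝ) : ℂ)) (den i) * x ξ q i) ∧
      ‖(∏ i, MvPolynomial.aeval (Sum.elim ξ fun x : Fin n × κ => ((u x.2 (q x.1) : ℝ) : ℂ)) (den i)) ^ d‖ ≤ N0)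
    (A ε : ℝ) (hε : 0 < ε) :
    ∃ (D : ℕ) (B C : ℝ), 0 ≤ B ∧ 0 < C ∧ (∀ (P : MvPolynomial σ ℤ) z, (TH659.AQ.elimp d num den P).degreeOf z ≤ D) ∧
      ∀ T : ℝ, 1 ≤ T → ∀ ξ ∈ X, ∃ S : Finset (Fin n → ℚ),
      (S.card : ℝ) ≤ C * T ^ (2 * ((n : ℝ) - 1) + ε) ∧ ∀ q : Fin n → ℚ,
      (∀ l, a ≤ q l ∧ q l ≤ b ∧ ((q l).den : ℝ) ≤ T) → q ∉ S → ∀ P : MvPolynomial σ ℤ, (∀ i, P.degreeOf i ≤ d) →
      (∀ s, |((P.coeff s : ℤ) : ℝ)| ≤ 2 * T ^ A) → ∀ μ : ℝ, 0 < μ →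
      (∀ Q : MvPolynomial G ℤ, (∀ i, Q.degreeOf i ≤ D) → (∀ s, |((Q.coeff s : ℤ) : ℝ)| ≤ T ^ (A + 1)) →
        MvPolynomial.aeval ξ Q ≠ 0 → μ ≤ ‖MvPolynomial.aeval ξ Q‖) →
      ‖MvPolynomial.aeval (x ξ q) P‖ ≤ 4 * (μ * T ^ (-B)) →
      ∀ e : Fin n → κ → Fin (D + 1), MvPolynomial.aeval ξ (Qe (TH659.AQ.elimp d num den P) e) = 0 := by
  classical
  obtain ⟨D, K, hK, hbd⟩ := TH659.AQ.elimp_bound (d := d) num den
  obtain ⟨B, C, hB, hC, hcore⟩ := core (G := G) (D := D) hn u a b hab han hf (A + 1) ε hε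
  obtain ⟨K', hK', hKc⟩ := card_RT_gen a b
  have hn1 : (1 : ℝ) ≤ n := by exact_mod_cast hn
  set T0 : ℝ := max (2 * K) (max 2 (4 * |N0|)) with hT0
  have hT02 : 2 ≤ T0 := (le_max_left _ _).trans (le_max_right _ _)
  have hT0p : 0 < T0 := by linarith
  refine ⟨D, B + 1, C + (K' * T0 ^ (2 : ℝ)) ^ n, by linarith, by positivity, fun P z => ?_, fun T hT ξ hξ => ?_⟩
  · obtain ⟨M, hM⟩ : ∃ M : ℝ, ∀ s, |((P.coeff s : ℤ) : ℝ)| ≤ M := by
      refine ⟨∑ s ∈ P.support, |((P.coeff s : ℤ) : ℝ)|, fun s => ?_⟩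
      by_cases hs : s ∈ P.support
      · exact Finset.single_le_sum (f := fun s => |((P.coeff s : ℤ) : ℝ)|) (fun _ _ => abs_nonneg _) hs
      · rw [MvPolynomial.notMem_support_iff] at hs
        rw [hs]
        simpa using Finset.sum_nonneg fun s (_ : s ∈ P.support) => abs_nonneg ((P.coeff s : ℤ) : ℝ)
    exact (hbd P M ((abs_nonneg _).trans (hM 0)) hM).1 z
  have hTp : 0 < T := by linarith
  have hone : 1 ≤ T ^ (2 * ((n : ℝ) - 1) + ε) := Real.one_le_rpow hT (by nlinarith)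
  rcases lt_or_ge T T0 with hlt | hge
  · refine ⟨Fintype.piFinset fun _ : Fin n => RT a b T, ?_, ?_⟩
    · rw [Fintype.card_piFinset, Finset.prod_const, Finset.card_univ, Fintype.card_fin]
      push_cast
      have h1 : ((RT a b T).card : ℝ) ^ n ≤ (K' * T0 ^ (2 : ℝ)) ^ n := by
        refine pow_le_pow_left₀ (by positivity) ((hKc T hT).trans ?_) _
        exact mul_le_mul_of_nonneg_left (Real.rpow_le_rpow hTp.le hlt.le (by norm_num)) hK'.le
      have h3 : 0 ≤ (K' * T0 ^ (2 : ℝ)) ^ n := by positivity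
      nlinarith
    · intro q hq hqS
      exact absurd (Fintype.mem_piFinset.2 fun l => mem_RT.2 ⟨⟨(hq l).1, (hq l).2.1⟩, (hq l).2.2⟩) hqS
  · obtain ⟨S, hS, hSq⟩ := hcore T hT ξ
    refine ⟨S, hS.trans ?_, ?_⟩
    · have h3 : 0 ≤ (K' * T0 ^ (2 : ℝ)) ^ n := by positivity
      nlinarith
    intro q hq hqS P hPd hPc μ hμ hQ hsmall e
    set E := TH659.AQ.elimp d num den P with hE
    obtain ⟨hEd, hEc⟩ := hbd P (2 * T ^ A) (by positivity) hPc
    have hEc' : ∀ s, |((E.coeff s : ℤ) : ℝ)| ≤ T ^ (A + 1) := by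
      intro s
      refine (hEc s).trans ?_
      rw [Real.rpow_add_one hTp.ne']
      have h1 : 2 * K ≤ T := (le_max_left _ _).trans hge
      have h2 : 0 < T ^ A := by positivity
      nlinarith
    by_contra hne
    have hlow := hQ (Qe E e) (Qe_deg E e) (Qe_coeff E e (by positivity) hEc') hne
    have h1 := hSq q hq hqS E hEd hEc' e
    rw [← cf_eq] at h1
    apply hne
    apply h1
    have h2 := TH659.AQ.aeval_elimp num den (x ξ q)
      (Sum.elim ξ fun x : Fin n × κ => ((u x.2 (q x.1) : ℝ) : ℂ)) (hx ξ hξ q fun l => ⟨(hq l).1, (hq l).2.1⟩).1 P hPd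
    rw [← hE] at h2
    have h3 := (hx ξ hξ q fun l => ⟨(hq l).1, (hq l).2.1⟩).2
    rw [h2, norm_mul]
    have hN0 : 0 ≤ N0 := (norm_nonneg _).trans h3
    have h4 : 4 * N0 ≤ T := by
      have := ((le_max_right _ _).trans (le_max_right _ _)).trans hge
      rwa [abs_of_nonneg hN0] at this
    have h5 : T ^ (-(B + 1)) = T ^ (-B) * T⁻¹ := by
      rw [← Real.rpow_neg_one, ← Real.rpow_add hTp]
      congr 1
      ring
    have h6 : 0 < T ^ (-B) := by positivity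
    calc _ ≤ N0 * (4 * (μ * T ^ (-(B + 1)))) := mul_le_mul h3 hsmall (norm_nonneg _) hN0
      _ = (4 * N0 * T⁻¹) * (T ^ (-B) * μ) := by rw [h5]; ring
      _ ≤ 1 * (T ^ (-B) * μ) := by
          refine mul_le_mul_of_nonneg_right ?_ (by positivity)
          rw [mul_inv_le_iff₀ hTp]
          linarith
      _ = T ^ (-B) * μ := one_mul _
      _ ≤ T ^ (-B) * ‖MvPolynomial.aeval ξ (Qe E e)‖ := mul_le_mul_of_nonneg_left hlow h6.le

end Pool.Agent.Y549.PE
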